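import Pool.Agent.Lib.MP_1a91b9_ntK.R.Chi3b

/-!
# MP_1a91b9_nt (cubic twists, classes modulo powers of three), part R: the group of the classes

`G9 n` is the group of the classes modulo `3 ^ (n + 2)` of the elements congruent to `1` modulo `3`.
-/

set_option autoImplicit false

namespace Pool.Agent.Lib.MP_1a91b9_ntS3.G

open NumberField Finset Pool.Agent.Lib.MP_1a91b9_ntT Pool.Agent.Lib.MP_1a91b9_ntK
open Pool.Agent.Lib.MP_1a91b9_ntH (wO s3 Nz Nz_coords Nz_mul Nz_one Nz_eq_zero PS nm one_le_nm pr Sx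
  CharB s3_sq discE nE_eq)

noncomputable section

/-- The modulus. -/
def Q9 (n : ℕ) : 𝓞 K := 3 ^ (n + 2)

theorem Q9_ne (n : ℕ) : Q9 n ≠ 0 := pow_ne_zero _ (by norm_num)

theorem nine_dvd_Q9 (n : ℕ) : (9 : 𝓞 K) ∣ Q9 n := ⟨3 ^ n, by unfold Q9; ring⟩

theorem three_dvd_Q9 (n : ℕ) : (3 : 𝓞 K) ∣ Q9 n := ⟨3 ^ (n + 1), by unfold Q9; ring⟩

theorem cop_Q9 (n : ℕ) {x : 𝓞 K} (hx : In3 x) : IsCoprime x (Q9 n) := by
  obtain ⟨t, ht⟩ : (3 : 𝓞 K) ∣ x - 1 := hx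
  have h1 : IsCoprime x (3 : 𝓞 K) := ⟨1, -t, by linear_combination ht⟩
  exact h1.pow_right

/-- The group of the classes of the elements congruent to `1` modulo `3`. -/
def GS9 (n : ℕ) : Subgroup (𝓞 K ⧸ Ideal.span {Q9 n})ˣ where
  carrier := {u | ∃ x : 𝓞 K, In3 x ∧ Ideal.Quotient.mk (Ideal.span {Q9 n}) x =
    (u : 𝓞 K ⧸ Ideal.span {Q9 n})}
  mul_mem' := by
    rintro u v ⟨x, hx, hu⟩ ⟨y, hy, hv⟩
    exact ⟨x * y, hx.mul hy, by rw [map_mul, hu, hv, Units.val_mul]⟩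
  one_mem' := ⟨1, ⟨0, by ring⟩, by rw [map_one, Units.val_one]⟩
  inv_mem' := by
    rintro u ⟨x, hx, hu⟩
    obtain ⟨y, hy⟩ := Ideal.Quotient.mk_surjective ((u⁻¹ : (𝓞 K ⧸ Ideal.span {Q9 n})ˣ) :
      𝓞 K ⧸ Ideal.span {Q9 n})
    refine ⟨y, ?_, hy⟩
    have h1 : Ideal.Quotient.mk (Ideal.span {Q9 n}) (x * y) =
        Ideal.Quotient.mk (Ideal.span {Q9 n}) 1 := by
      rw [map_mul, hu, hy, map_one, Units.mul_inv]
    rw [Ideal.Quotient.eq, Ideal.mem_span_singleton] at h1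
    have h2 : In3 (x * y) := (three_dvd_Q9 n).trans h1
    exact In3.of_mul hx h2

/-- The group of the classes, written additively. -/
abbrev G9 (n : ℕ) : Type := Additive (GS9 n)

theorem isUnit_mk9 (n : ℕ) {x : 𝓞 K} (hx : In3 x) :
    IsUnit (Ideal.Quotient.mk (Ideal.span {Q9 n}) x) := by
  obtain ⟨a, b, hab⟩ := cop_Q9 n hx
  refine IsUnit.of_mul_eq_one (Ideal.Quotient.mk (Ideal.span {Q9 n}) a) ?_
  rw [← map_mul, ← map_one (Ideal.Quotient.mk (Ideal.span {Q9 n})), Ideal.Quotient.eq,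
    Ideal.mem_span_singleton]
  exact ⟨-b, by linear_combination hab⟩

/-- The class of an element congruent to `1` modulo `3`. -/
def g9 (n : ℕ) (x : 𝓞 K) (hx : In3 x) : G9 n :=
  Additive.ofMul ⟨(isUnit_mk9 n hx).unit, x, hx, rfl⟩

theorem g9_eq_iff (n : ℕ) {x y : 𝓞 K} (hx : In3 x) (hy : In3 y) :
    g9 n x hx = g9 n y hy ↔ Q9 n ∣ x - y := by
  unfold g9
  rw [Additive.ofMul.injective.eq_iff, Subtype.mk.injEq, Units.ext_iff, IsUnit.unit_spec,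
    IsUnit.unit_spec, Ideal.Quotient.eq, Ideal.mem_span_singleton]

theorem g9_mul (n : ℕ) {x y : 𝓞 K} (hx : In3 x) (hy : In3 y) :
    g9 n (x * y) (hx.mul hy) = g9 n x hx + g9 n y hy := by
  unfold g9
  rw [← ofMul_mul]
  congr 1
  apply Subtype.ext
  apply Units.ext
  change Ideal.Quotient.mk (Ideal.span {Q9 n}) (x * y) =
    Ideal.Quotient.mk (Ideal.span {Q9 n}) x * Ideal.Quotient.mk (Ideal.span {Q9 n}) y
  rw [map_mul]

theorem in3_one : In3 1 := ⟨0, by ring⟩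

theorem g9_one (n : ℕ) : g9 n 1 in3_one = 0 := by
  have h := g9_mul n in3_one in3_one
  have h1 : g9 n (1 * 1) (in3_one.mul in3_one) = g9 n 1 in3_one := by
    rw [g9_eq_iff]
    simp
  rw [h1] at h
  exact left_eq_add.1 h

theorem g9_surj (n : ℕ) (g : G9 n) : ∃ (x : 𝓞 K) (hx : In3 x), g9 n x hx = g := by
  obtain ⟨⟨u, x, hx, hu⟩, rfl⟩ := Additive.ofMul.surjective g
  refine ⟨x, hx, ?_⟩
  unfold g9
  congr 1
  apply Subtype.ext
  apply Units.ext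
  exact hu

/-- The class of a prime. -/
def c9 (n : ℕ) (q : P3) : G9 n := g9 n q.1 q.in3

/-- The class of a product of primes. -/
theorem g9_DD3 (n : ℕ) (S : Finset P3) : g9 n (DD3 S) (DD3_in3 S) = ∑ q ∈ S, c9 n q := by
  classical
  induction S using Finset.induction_on with
  | empty =>
    rw [sum_empty, ← g9_one n, g9_eq_iff, DD3_empty, sub_self]
    exact dvd_zero _
  | insert q S hq ih =>
    rw [sum_insert hq, ← ih]
    unfold c9
    rw [← g9_mul, g9_eq_iff, DD3_insert hq, sub_self]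
    exact dvd_zero _

theorem in3_pq (S T : Finset P3) : In3 (DD3 S * DD3 T ^ 2) := by
  rw [pow_two]
  exact (DD3_in3 S).mul ((DD3_in3 T).mul (DD3_in3 T))

theorem g9_pp (n : ℕ) (S T : Finset P3) : g9 n (DD3 S * DD3 T ^ 2) (in3_pq S T) =
    ∑ q ∈ S, c9 n q + (∑ q ∈ T, c9 n q + ∑ q ∈ T, c9 n q) := by
  rw [← g9_DD3, ← g9_DD3, ← g9_mul n (DD3_in3 T) (DD3_in3 T),
    ← g9_mul n (DD3_in3 S) ((DD3_in3 T).mul (DD3_in3 T)), g9_eq_iff]
  exact ⟨0, by ring⟩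

theorem finite_quot9 (n : ℕ) : Finite (𝓞 K ⧸ Ideal.span {Q9 n}) :=
  Ideal.finiteQuotientOfFreeOfNeBot _ (by
    rw [Ne, Ideal.span_singleton_eq_bot]
    exact Q9_ne n)

instance finite_G9 (n : ℕ) : Finite (G9 n) := by
  have := finite_quot9 n
  infer_instance

/-! ### Representatives and the classes modulo nine -/

/-- A representative. -/
def rep9 (n : ℕ) (g : G9 n) : 𝓞 K := (g9_surj n g).choose

theorem rep9_in (n : ℕ) (g : G9 n) : In3 (rep9 n g) := (g9_surj n g).choose_spec.choose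

theorem g9_rep (n : ℕ) (g : G9 n) : g9 n (rep9 n g) (rep9_in n g) = g :=
  (g9_surj n g).choose_spec.choose_spec

theorem dvd_rep9 (n : ℕ) {x : 𝓞 K} (hx : In3 x) : Q9 n ∣ rep9 n (g9 n x hx) - x := by
  rw [← g9_eq_iff n (rep9_in n _) hx, g9_rep]

theorem rep9_add (n : ℕ) (a b : G9 n) : Q9 n ∣ rep9 n (a + b) - rep9 n a * rep9 n b := by
  rw [← g9_eq_iff n (rep9_in n _) ((rep9_in n a).mul (rep9_in n b)),
    g9_mul n (rep9_in n a) (rep9_in n b), g9_rep, g9_rep, g9_rep]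

/-- The first class modulo nine. -/
def aG9 (n : ℕ) : G9 n →+ ZMod 3 :=
  AddMonoidHom.mk' (fun g => cl3 (rep9 n g)) (fun a b => by
    rw [← cl3_mul (rep9_in n a) (rep9_in n b)]
    exact cl3_congr (rep9_in n _) ((nine_dvd_Q9 n).trans (rep9_add n a b)))

theorem aG9_g9 (n : ℕ) {x : 𝓞 K} (hx : In3 x) : aG9 n (g9 n x hx) = cl3 x :=
  cl3_congr (rep9_in n _) ((nine_dvd_Q9 n).trans (dvd_rep9 n hx))

/-- The second class modulo nine. -/
def bG9 (n : ℕ) : G9 n →+ ZMod 3 :=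
  AddMonoidHom.mk' (fun g => cn3 (rep9 n g)) (fun a b => by
    rw [← cn3_mul (rep9_in n a) (rep9_in n b)]
    exact cn3_congr (rep9_in n _) ((nine_dvd_Q9 n).trans (rep9_add n a b)))

theorem bG9_g9 (n : ℕ) {x : 𝓞 K} (hx : In3 x) : bG9 n (g9 n x hx) = cn3 x :=
  cn3_congr (rep9_in n _) ((nine_dvd_Q9 n).trans (dvd_rep9 n hx))

theorem aG9_c9 (n : ℕ) (q : P3) : aG9 n (c9 n q) = d3b.a q := by
  rw [c9, aG9_g9, cl3_q]
  rfl

theorem bG9_c9 (n : ℕ) (q : P3) : bG9 n (c9 n q) = d3b.b q := by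
  rw [c9, bG9_g9, cn3_q]
  rfl

end

end Pool.Agent.Lib.MP_1a91b9_ntS3.G
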