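import Pool.Agent.Lib.MP_1a91b9_ntS3.G.Fam9
import Pool.Agent.Lib.MP_1a91b9_ntS3.DG.Def
import Pool.Agent.Lib.MP_1a91b9_ntK.Q.LimK

/-!
# MP_1a91b9_nt (cubic twists, classes modulo powers of three): the exact density of the good pairs
-/

set_option autoImplicit false

namespace Pool.Agent.Lib.MP_1a91b9_ntS3.G

open NumberField IsDedekindDomain Finset Filter Topology Pool.Agent.Lib.MP_1a91b9_ntT
  Pool.Agent.Lib.MP_1a91b9_ntK Pool.Agent.Lib.MP_1a91b9_ntK2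
open Pool.Agent.Lib.MP_1a91b9_ntK2.D9 (Idx ph Cy ph_eq ph_inj ph_cf exists_ph exists_un un)
open Pool.Agent.Lib.MP_1a91b9_ntH (wO s3 Nz PS nm Sx mem_Sx prime_s3 s3_sq abs_norm_le)
open Pool.Agent.Lib.MP_1a91b9_ntS3.DG (Dich3 DensG3 Bd3 SGT mem_SGT Mz3)

noncomputable section

variable {n : ℕ}

theorem dich3_9 (n : ℕ) : Dich3 d3b (c9 n) := dich9 n

/-! ### The good pairs in terms of the four predicates -/

theorem cl3_sP (S T : Finset P3) : cl3 (DD3 S * DD3 T ^ 2) = aG9 n (sP n S T) := by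
  unfold sP
  rw [← g9_pp, aG9_g9]

theorem cn3_sP (S T : Finset P3) : cn3 (DD3 S * DD3 T ^ 2) = bG9 n (sP n S T) := by
  unfold sP
  rw [← g9_pp, bG9_g9]

theorem good_k {b : Bool} {k : Fin 3} {α β : ZMod 3} {S T : Finset P3} (hk : k ≠ 0) :
    Good9 (b, k, 0, α, β) S T ↔ ((d3b.tw (k : ZMod 3) 0).N (eT T) 1 (S ∪ T)).det ≠ 0 := by
  have h01 : (0 : Fin 3) ≠ 1 := by decide
  have h02 : (0 : Fin 3) ≠ 2 := by decide
  rw [N_tw]
  constructor
  · rintro (⟨_, h⟩ | ⟨_, h, _, _⟩ | ⟨h, _⟩ | ⟨h, _⟩)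
    · rcases h with ⟨_, h⟩ | ⟨h, _⟩
      · exact h
      · exact absurd h hk
    · exact absurd h hk
    · exact absurd h h01
    · exact absurd h h02
  · intro h
    exact Or.inl ⟨rfl, Or.inl ⟨hk, h⟩⟩

theorem good_0 {b : Bool} {α β : ZMod 3} {S T : Finset P3} (hα : α ≠ 0)
    (hA : ∑ q ∈ S ∪ T, eT T q * d3.a q ≠ 0) :
    Good9 (b, 0, 0, α, β) S T ↔ d3b.kc (eT T) 0 (S ∪ T) = 3 := by
  have h01 : (0 : Fin 3) ≠ 1 := by decide
  have h02 : (0 : Fin 3) ≠ 2 := by decide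
  constructor
  · rintro (⟨_, h⟩ | ⟨_, _, h, _⟩ | ⟨h, _⟩ | ⟨h, _⟩)
    · rcases h with ⟨h, _⟩ | ⟨_, _, h⟩
      · exact absurd rfl h
      · exact h
    · exact absurd h hα
    · exact absurd h h01
    · exact absurd h h02
  · intro h
    exact Or.inl ⟨rfl, Or.inr ⟨rfl, hA, h⟩⟩

theorem good_H {b : Bool} {β : ZMod 3} {S T : Finset P3} (hR : (S ∪ T).Nonempty)
    (hA : ∑ q ∈ S ∪ T, eT T q * d3.a q = 0) :
    Good9 (b, 0, 0, 0, β) S T ↔ d3b.kB (eT T) 0 0 β (S ∪ T) = 3 := by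
  have h01 : (0 : Fin 3) ≠ 1 := by decide
  have h02 : (0 : Fin 3) ≠ 2 := by decide
  constructor
  · rintro (⟨_, h⟩ | ⟨_, _, _, h⟩ | ⟨h, _⟩ | ⟨h, _⟩)
    · rcases h with ⟨h, _⟩ | ⟨_, h, _⟩
      · exact absurd rfl h
      · exact absurd hA h
    · exact h.2
    · exact absurd h h01
    · exact absurd h h02
  · intro h
    exact Or.inr (Or.inl ⟨rfl, rfl, rfl, hR, h⟩)

theorem good_1 {b : Bool} {k : Fin 3} {α β : ZMod 3} {S T : Finset P3} :
    Good9 (b, k, 1, α, β) S T ↔ (d3b.NB (eT T) (k : ZMod 3) 1 (k : ZMod 3) (S ∪ T)).det ≠ 0 := by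
  have h10 : (1 : Fin 3) ≠ 0 := by decide
  have h12 : (1 : Fin 3) ≠ 2 := by decide
  constructor
  · rintro (⟨h, _⟩ | ⟨h, _⟩ | ⟨_, h⟩ | ⟨h, _⟩)
    · exact absurd h h10
    · exact absurd h h10
    · exact h
    · exact absurd h h12
  · intro h
    exact Or.inr (Or.inr (Or.inl ⟨rfl, h⟩))

theorem good_2 {b : Bool} {k : Fin 3} {α β : ZMod 3} {S T : Finset P3} :
    Good9 (b, k, 2, α, β) S T ↔ ((d3b.tw (k : ZMod 3) 2).N (eT T) 1 (S ∪ T)).det ≠ 0 := by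
  have h20 : (2 : Fin 3) ≠ 0 := by decide
  have h21 : (2 : Fin 3) ≠ 1 := by decide
  constructor
  · rintro (⟨h, _⟩ | ⟨h, _⟩ | ⟨h, _⟩ | ⟨_, h⟩)
    · exact absurd h h20
    · exact absurd h h20
    · exact absurd h h21
    · exact h
  · intro h
    exact Or.inr (Or.inr (Or.inr ⟨rfl, h⟩))

/-- The class of the sets `S` for given `T`. -/
def gT (T : Finset P3) (g : G9 n) : G9 n := g - (∑ q ∈ T, c9 n q + ∑ q ∈ T, c9 n q)

theorem sP_iff {S T : Finset P3} {g : G9 n} : sP n S T = g ↔ ∑ q ∈ S, c9 n q = gT T g := by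
  unfold sP gT
  rw [eq_sub_iff_add_eq]

open Classical in
theorem SGT_eq (T : Finset P3) (g : G9 n) (X : ℕ) : SGT (c9 n) T (gT T g) X =
    (Sx P3 X).filter fun S => Disjoint S T ∧ sP n S T = g := by
  ext S
  rw [mem_SGT, mem_filter, sP_iff, and_assoc]

/-- **The bounds for the good pairs**: there is a predicate with the two bounds, equivalent to the
goodness of the pair, with the possible exception of the empty pair. -/
theorem exists_bd (hD : DensG3 d3b (c9 n)) (i : IdG n) (T : Finset P3) :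
    ∃ P : Finset P3 → Prop, Bd3 (c9 n) T (gT T i.2.2.2) P ∧
      ∀ S : Finset P3, Disjoint S T → sP n S T = i.2.2.2 → (S ∪ T).Nonempty →
        (Good9 (toI i) S T ↔ P S) := by
  obtain ⟨b, k, j, g⟩ := i
  dsimp only
  rcases fin3_cases j with rfl | rfl | rfl
  · by_cases hk : k = 0
    · subst hk
      by_cases hα : aG9 n g = 0
      · refine ⟨_, hD.bz T (gT T g) (bG9 n g) ?_, fun S hST hs hR => ?_⟩
        · intro X S hS
          rw [mem_SGT] at hS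
          rw [cls_a hS.1.2, cl3_sP (n := n), sP_iff.2 hS.2, hα]
        · have e : toI ((b, 0, 0, g) : IdG n) = (b, 0, 0, 0, bG9 n g) := by
            unfold toI
            dsimp only
            rw [hα]
          rw [e]
          refine good_H hR ?_
          have h1 : d3b.cA (eT T) (S ∪ T) = cl3 (DD3 S * DD3 T ^ 2) := cls_a hST
          rw [cl3_sP (n := n), hs, hα] at h1
          exact h1
      · refine ⟨_, hD.ze T (gT T g), fun S hST hs hR => ?_⟩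
        refine good_0 hα ?_
        have h1 : d3b.cA (eT T) (S ∪ T) = cl3 (DD3 S * DD3 T ^ 2) := cls_a hST
        rw [cl3_sP (n := n), hs] at h1
        have h2 : ∑ q ∈ S ∪ T, eT T q * d3.a q = aG9 n g := h1
        rw [h2]
        exact hα
    · exact ⟨_, hD.ne T (gT T g) (k : ZMod 3) 0 (Or.inl hk), fun S hST hs hR => good_k hk⟩
  · exact ⟨_, hD.bo T (gT T g) (k : ZMod 3) 1 (k : ZMod 3) (by decide),
      fun S hST hs hR => good_1⟩
  · exact ⟨_, hD.ne T (gT T g) (k : ZMod 3) 2 (Or.inr (by decide)),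
      fun S hST hs hR => good_2⟩

theorem one_le_eps {ε : ℝ} (hε : 0 < ε) {X : ℕ} (h : ⌈2 / ε⌉₊ ≤ X) : 1 ≤ ε / 2 * X := by
  have h3 : (2 : ℝ) / ε ≤ X := (Nat.le_ceil _).trans (by exact_mod_cast h)
  rw [div_le_iff₀ hε] at h3
  linarith

open Classical in
/-- **The lower density of the good pairs.** -/
theorem low_good (hD : DensG3 d3b (c9 n)) (i : IdG n) (T : Finset P3) {κ : ℝ} (hκ : κ < Da.cinf3)
    (ε : ℝ) (hε : 0 < ε) : ∃ X₀ : ℕ, ∀ X : ℕ, X₀ ≤ X →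
      κ * (((Sx P3 X).filter fun S => Disjoint S T ∧ sP n S T = i.2.2.2).card : ℝ) - ε * X ≤
      (((Sx P3 X).filter fun S => Disjoint S T ∧ sP n S T = i.2.2.2 ∧
        Good9 (toI i) S T).card : ℝ) := by
  obtain ⟨P, hP, hG⟩ := exists_bd hD i T
  obtain ⟨X₀, h⟩ := (hP κ).1 hκ (ε / 2) (half_pos hε)
  refine ⟨X₀ + ⌈2 / ε⌉₊, fun X hX => ?_⟩
  have h1 := h X (by omega)
  have h2 := one_le_eps hε (X := X) (by omega)
  rw [SGT_eq] at h1
  have h3 : (((Sx P3 X).filter fun S => Disjoint S T ∧ sP n S T = i.2.2.2).filter P).card ≤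
      ((Sx P3 X).filter fun S => Disjoint S T ∧ sP n S T = i.2.2.2 ∧
        Good9 (toI i) S T).card + 1 := by
    refine (card_le_card (t := insert ∅ ((Sx P3 X).filter fun S => Disjoint S T ∧
      sP n S T = i.2.2.2 ∧ Good9 (toI i) S T)) ?_).trans (card_insert_le _ _)
    intro S hS
    rw [mem_filter, mem_filter] at hS
    rw [mem_insert, mem_filter]
    by_cases h7 : S = ∅
    · exact Or.inl h7
    · have h8 : (S ∪ T).Nonempty := (nonempty_iff_ne_empty.2 h7).mono subset_union_left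
      exact Or.inr ⟨hS.1.1, hS.1.2.1, hS.1.2.2, (hG S hS.1.2.1 hS.1.2.2 h8).2 hS.2⟩
  have h4 : ((((Sx P3 X).filter fun S => Disjoint S T ∧ sP n S T = i.2.2.2).filter P).card : ℝ) ≤
      (((Sx P3 X).filter fun S => Disjoint S T ∧ sP n S T = i.2.2.2 ∧
        Good9 (toI i) S T).card : ℝ) + 1 := by
    exact_mod_cast h3
  have h5 : ((((Sx P3 X).filter fun S => Disjoint S T ∧ sP n S T = i.2.2.2).filter P).card : ℝ) =
      ((((Sx P3 X).filter fun S => Disjoint S T ∧ sP n S T = i.2.2.2).filter fun S => P S).card : ℝ) :=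
    rfl
  linarith

/-- The bad pairs. -/
def BadG (i : IdG n) (S T : Finset P3) : Prop := (S ∪ T).Nonempty ∧ ¬ Good9 (toI i) S T

open Classical in
/-- **The lower density of the bad pairs.** -/
theorem low_bad (hD : DensG3 d3b (c9 n)) (i : IdG n) (T : Finset P3) {κ : ℝ} (hκ : Da.cinf3 < κ)
    (ε : ℝ) (hε : 0 < ε) : ∃ X₀ : ℕ, ∀ X : ℕ, X₀ ≤ X →
      (1 - κ) * (((Sx P3 X).filter fun S => Disjoint S T ∧ sP n S T = i.2.2.2).card : ℝ) - ε * X ≤
      (((Sx P3 X).filter fun S => Disjoint S T ∧ sP n S T = i.2.2.2 ∧ BadG i S T).card : ℝ) := by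
  obtain ⟨P, hP, hG⟩ := exists_bd hD i T
  obtain ⟨X₀, h⟩ := (hP κ).2 hκ (ε / 2) (half_pos hε)
  refine ⟨X₀ + ⌈2 / ε⌉₊, fun X hX => ?_⟩
  have h1 := h X (by omega)
  have h2 := one_le_eps hε (X := X) (by omega)
  rw [SGT_eq] at h1
  have h3 : ((Sx P3 X).filter fun S => Disjoint S T ∧ sP n S T = i.2.2.2).card ≤
      (((Sx P3 X).filter fun S => Disjoint S T ∧ sP n S T = i.2.2.2).filter P).card +
      (((Sx P3 X).filter fun S => Disjoint S T ∧ sP n S T = i.2.2.2 ∧ BadG i S T).card + 1) := by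
    have h6 : ((Sx P3 X).filter fun S => Disjoint S T ∧ sP n S T = i.2.2.2) ⊆
        (((Sx P3 X).filter fun S => Disjoint S T ∧ sP n S T = i.2.2.2).filter P) ∪
        insert ∅ ((Sx P3 X).filter fun S => Disjoint S T ∧ sP n S T = i.2.2.2 ∧ BadG i S T) := by
      intro S hS
      have hS' := mem_filter.1 hS
      rw [mem_union, mem_insert]
      by_cases h7 : S = ∅
      · exact Or.inr (Or.inl h7)
      · have h8 : (S ∪ T).Nonempty := (nonempty_iff_ne_empty.2 h7).mono subset_union_left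
        by_cases hP' : P S
        · exact Or.inl (mem_filter.2 ⟨hS, hP'⟩)
        · exact Or.inr (Or.inr (mem_filter.2 ⟨hS'.1, hS'.2.1, hS'.2.2, h8, fun hg =>
            hP' ((hG S hS'.2.1 hS'.2.2 h8).1 hg)⟩))
    refine (card_le_card h6).trans ((card_union_le _ _).trans ?_)
    exact Nat.add_le_add_left (card_insert_le _ _) _
  have h4 : (((Sx P3 X).filter fun S => Disjoint S T ∧ sP n S T = i.2.2.2).card : ℝ) ≤
      ((((Sx P3 X).filter fun S => Disjoint S T ∧ sP n S T = i.2.2.2).filter P).card : ℝ) +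
      ((((Sx P3 X).filter fun S => Disjoint S T ∧ sP n S T = i.2.2.2 ∧ BadG i S T).card : ℝ) +
        1) := by
    exact_mod_cast h3
  have h5 : ((((Sx P3 X).filter fun S => Disjoint S T ∧ sP n S T = i.2.2.2).filter P).card : ℝ) =
      ((((Sx P3 X).filter fun S => Disjoint S T ∧ sP n S T = i.2.2.2).filter fun S => P S).card : ℝ) :=
    rfl
  linarith

/-! ### The residue classes contain cube-free elements -/

/-- every residue class which is not divisible by `s3 ^ 3` contains cube-free elements -/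
theorem exists_cfG (n : ℕ) {x : 𝓞 K} (hx : ¬ s3 ^ 3 ∣ x) : ∃ x', CF x' ∧ Q9 n ∣ x' - x := by
  classical
  obtain ⟨j, z, hz, hxz⟩ : ∃ (j : Fin 3) (z : 𝓞 K), ¬ s3 ∣ z ∧ x = s3 ^ (j : ℕ) * z := by
    by_cases h0 : s3 ∣ x
    · obtain ⟨x1, h1⟩ := h0
      by_cases h2 : s3 ∣ x1
      · obtain ⟨x2, h2'⟩ := h2
        refine ⟨2, x2, ?_, ?_⟩
        · rintro ⟨x3, h3⟩
          exact hx ⟨x3, by rw [h1, h2', h3]; ring⟩
        · rw [h1, h2']
          change _ = s3 ^ 2 * x2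
          ring
      · exact ⟨1, x1, h2, by rw [h1]; change _ = s3 ^ 1 * x1; ring⟩
    · exact ⟨0, x, h0, by change _ = s3 ^ 0 * x; ring⟩
  obtain ⟨v, hv, hv3⟩ := exists_unit3 hz
  obtain ⟨v', hv'⟩ := hv.exists_left_inv
  obtain ⟨b, k, hbk⟩ := exists_un (IsUnit.of_mul_eq_one v hv')
  obtain ⟨c, hc, X₀, hX₀⟩ := SC9_ge n (g9 n (v * z) hv3)
  have h1 : (0 : ℝ) < ((SC9 n (g9 n (v * z) hv3) (X₀ + 1)).card : ℝ) := by
    refine lt_of_lt_of_le ?_ (hX₀ (X₀ + 1) (Nat.le_succ _))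
    positivity
  obtain ⟨S, hS⟩ := card_pos.1 (by exact_mod_cast h1 : 0 < (SC9 n (g9 n (v * z) hv3) (X₀ + 1)).card)
  rw [SC9, mem_filter] at hS
  have h9 : Q9 n ∣ DD3 S - v * z := by
    rw [← g9_eq_iff n (DD3_in3 S) hv3, g9_DD3]
    exact hS.2
  refine ⟨ph (b, k, j, cl3 (DD3 S), cn3 (DD3 S)) (DD3 S), ph_cf (Cy_DD3 S b k j), ?_⟩
  have e3 : ph (b, k, j, cl3 (DD3 S), cn3 (DD3 S)) (DD3 S) - x =
      v' * s3 ^ (j : ℕ) * (DD3 S - v * z) := by
    unfold ph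
    dsimp only
    rw [hbk, hxz]
    linear_combination (s3 ^ (j : ℕ) * z) * hv'
  rw [e3]
  exact Dvd.dvd.mul_left h9 _

/-- the class of `u` modulo a divisor `m` of `Q9 n` contains cube-free elements unless `s3 ^ 3` divides
both -/
theorem exists_cfG_class {m u : 𝓞 K} (hm : m ∣ Q9 n) (hu : ¬ (s3 ^ 3 ∣ m ∧ s3 ^ 3 ∣ u)) :
    ∃ x, CF x ∧ m ∣ x - u := by
  obtain ⟨y, hy, hmy⟩ : ∃ y : 𝓞 K, ¬ s3 ^ 3 ∣ y ∧ m ∣ y - u := by
    by_cases h : s3 ^ 3 ∣ u
    · refine ⟨u + m, fun h1 => hu ⟨?_, h⟩, ⟨1, by ring⟩⟩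
      exact (dvd_add_right h).1 h1
    · exact ⟨u, h, by rw [sub_self]; exact dvd_zero _⟩
  obtain ⟨x, hx, h9⟩ := exists_cfG n hy
  refine ⟨x, hx, ?_⟩
  have e : x - u = (x - y) + (y - u) := by ring
  rw [e]
  exact dvd_add (hm.trans h9) hmy

/-- **The exact density.** -/
theorem limG (hD : DensG3 d3b (c9 n)) {m u : 𝓞 K} (hm : m ∣ Q9 n)
    (hu : ¬ (s3 ^ 3 ∣ m ∧ s3 ^ 3 ∣ u)) (Pr : 𝓞 K → Prop)
    (hPr1 : ∀ (i : Idx) (S T : Finset P3), Disjoint S T →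
      cl3 (DD3 S * DD3 T ^ 2) = i.2.2.2.1 → cn3 (DD3 S * DD3 T ^ 2) = i.2.2.2.2 →
      Good9 i S T → Pr (ph i (DD3 S * DD3 T ^ 2)))
    (hPr2 : ∀ (i : Idx) (S T : Finset P3), Disjoint S T → (S ∪ T).Nonempty →
      cl3 (DD3 S * DD3 T ^ 2) = i.2.2.2.1 → cn3 (DD3 S * DD3 T ^ 2) = i.2.2.2.2 →
      Pr (ph i (DD3 S * DD3 T ^ 2)) → Good9 i S T) :
    Tendsto (fun X : ℝ =>
      (Nat.card {x : 𝓞 K // (∀ p, Prime p → ¬ p ^ 3 ∣ x) ∧ m ∣ x - u ∧ |Algebra.norm ℤ x| ≤ X ∧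
          Pr x} : ℝ) /
        (Nat.card {x : 𝓞 K // (∀ p, Prime p → ¬ p ^ 3 ∣ x) ∧ m ∣ x - u ∧
          |Algebra.norm ℤ x| ≤ X} : ℝ)) atTop
      (𝓝 (∏' i : ℕ, (1 + 1 / (3 : ℝ) ^ (i + 1))⁻¹)) := by
  classical
  have ha : ∀ (i : IdG n) (S T : Finset P3), sP n S T = i.2.2.2 →
      cl3 (DD3 S * DD3 T ^ 2) = (toI i).2.2.2.1 := by
    intro i S T h
    rw [cl3_sP (n := n), h]
    rfl
  have hb : ∀ (i : IdG n) (S T : Finset P3), sP n S T = i.2.2.2 →
      cn3 (DD3 S * DD3 T ^ 2) = (toI i).2.2.2.2 := by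
    intro i S T h
    rw [cn3_sP (n := n), h]
    rfl
  have hc0 := cinf3_gt
  have hc1 := cinf3_lt_one
  refine limK_of_bounds
    (b := fun X => Nat.card {x : 𝓞 K // (∀ p, Prime p → ¬ p ^ 3 ∣ x) ∧ m ∣ x - u ∧
      |Algebra.norm ℤ x| ≤ X ∧ ¬ Pr x}) (fun X => ?_) (fun ε hε => ?_) (fun ε hε => ?_)
  · have h := cardK_add_card (P := fun x : 𝓞 K => (∀ p, Prime p → ¬ p ^ 3 ∣ x) ∧ m ∣ x - u ∧
      |Algebra.norm ℤ x| ≤ X) (X := X) Pr (fun x hx => hx.2.2)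
    simp only [and_assoc] at h
    exact h
  · rw [cinf3_form] at hc0 ⊢
    obtain ⟨κ, hκ1, hκ2⟩ : ∃ κ : ℝ, max 0 (Da.cinf3 - ε) < κ ∧ κ < Da.cinf3 :=
      exists_between (max_lt (by linarith) (by linarith))
    have key := density_allG n (fun x => m ∣ x - u) (fun i y y' _ _ h9 => hR_cls hm i y y' h9)
      (exists_cfG_class hm hu) κ (Da.cinf3 - ε) ((le_max_left _ _).trans hκ1.le)
      (lt_of_le_of_lt (le_max_right _ _) hκ1) (fun i S T => Good9 (toI i) S T)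
      (fun i T η hη => low_good hD i T hκ2 η hη) Pr
      (fun i S T hST hs hG => hPr1 (toI i) S T hST (ha i S T hs) (hb i S T hs) hG)
    filter_upwards [key] with X hX
    simp only [CF_iff] at hX
    exact hX
  · rw [cinf3_form]
    obtain ⟨κ, hκ1, hκ2⟩ : ∃ κ : ℝ, Da.cinf3 < κ ∧ κ < min 1 (Da.cinf3 + ε) :=
      exists_between (lt_min hc1 (by linarith))
    have hκ3 : κ < 1 := lt_of_lt_of_le hκ2 (min_le_left _ _)
    have hκ4 : κ < Da.cinf3 + ε := lt_of_lt_of_le hκ2 (min_le_right _ _)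
    have key := density_allG n (fun x => m ∣ x - u) (fun i y y' _ _ h9 => hR_cls hm i y y' h9)
      (exists_cfG_class hm hu) (1 - κ) (1 - Da.cinf3 - ε) (by linarith) (by linarith)
      (fun i S T => BadG i S T)
      (fun i T η hη => low_bad hD i T hκ1 η hη) (fun x => ¬ Pr x)
      (fun i S T hST hs hG h => hG.2 (hPr2 (toI i) S T hST hG.1 (ha i S T hs) (hb i S T hs) h))
    filter_upwards [key] with X hX
    simp only [CF_iff] at hX
    exact hX

end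

end Pool.Agent.Lib.MP_1a91b9_ntS3.G
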