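import Pool.Agent.Lib.MP_1a91b9_ntS3.G.Grp9

/-!
# MP_1a91b9_nt (cubic twists, classes modulo powers of three), part R: the characters of the classes

A character of the group of the classes is on the primes a character of the classes modulo nine, or its
products with the cubic characters have mean value zero on the squarefree elements.
-/

set_option autoImplicit false

namespace Pool.Agent.Lib.MP_1a91b9_ntS3.G

open NumberField Finset Pool.Agent.Lib.MP_1a91b9_ntT Pool.Agent.Lib.MP_1a91b9_ntK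
open Pool.Agent.Lib.MP_1a91b9_ntH (wO s3 Nz Nz_coords Nz_mul Nz_one Nz_eq_zero PS nm one_le_nm pr Sx
  CharB s3_sq discE nE_eq)

noncomputable section

variable {n : ℕ}

open Classical in
/-- The weight of a character of the group of the classes. -/
def w9 (ψ : AddChar (G9 n) ℂ) (x : 𝓞 K) : ℂ := if h : In3 x then ψ (g9 n x h) else 0

theorem w9_of {ψ : AddChar (G9 n) ℂ} {x : 𝓞 K} (h : In3 x) : w9 ψ x = ψ (g9 n x h) := dif_pos h

theorem w9_one (ψ : AddChar (G9 n) ℂ) : w9 ψ 1 = 1 := by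
  rw [w9_of in3_one, g9_one, AddChar.map_zero_eq_one]

theorem w9_mul (ψ : AddChar (G9 n) ℂ) {x y : 𝓞 K} (hx : In3 x) (hy : In3 y) :
    w9 ψ (x * y) = w9 ψ x * w9 ψ y := by
  rw [w9_of hx, w9_of hy, w9_of (hx.mul hy), g9_mul, AddChar.map_add_eq_mul]

theorem w9_norm (ψ : AddChar (G9 n) ℂ) {x : 𝓞 K} (hx : In3 x) : ‖w9 ψ x‖ = 1 := by
  rw [w9_of hx]
  exact AddChar.norm_apply _ _

theorem w9_congr (ψ : AddChar (G9 n) ℂ) {x y : 𝓞 K} (hx : In3 x) (h : Q9 n ∣ x - y) :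
    w9 ψ x = w9 ψ y := by
  have hy : In3 y := (in3_congr ((three_dvd_Q9 n).trans h)).1 hx
  rw [w9_of hx, w9_of hy, (g9_eq_iff n hx hy).2 h]

/-- The product with a cubic character. -/
def W9 (ψ : AddChar (G9 n) ℂ) (B : Finset P3) (t : P3 → ZMod 3) (c d : ZMod 3) (x : 𝓞 K) : ℂ :=
  w9 ψ x * chBb B t c d x

theorem W9_of_not {ψ : AddChar (G9 n) ℂ} {B : Finset P3} {t : P3 → ZMod 3} {c d : ZMod 3} {x : 𝓞 K}
    (h : ¬ In3 x) : W9 ψ B t c d x = 0 := by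
  unfold W9
  rw [chBb_of_not fun h1 => h h1.1, mul_zero]

theorem W9_mul (ψ : AddChar (G9 n) ℂ) (B : Finset P3) (t : P3 → ZMod 3) (c d : ZMod 3) {x : 𝓞 K}
    (hx : In3 x) (y : 𝓞 K) : W9 ψ B t c d (x * y) = W9 ψ B t c d x * W9 ψ B t c d y := by
  by_cases hy : In3 y
  · unfold W9
    rw [w9_mul ψ hx hy, chBb_mul B t c d hx y]
    ring
  · rw [W9_of_not (x := y) hy, mul_zero, W9_of_not]
    exact fun h => hy (In3.of_mul hx h)

theorem W9_norm (ψ : AddChar (G9 n) ℂ) (B : Finset P3) (t : P3 → ZMod 3) (c d : ZMod 3) (x : 𝓞 K) :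
    ‖W9 ψ B t c d x‖ ≤ 1 := by
  by_cases hx : In3 x
  · unfold W9
    rw [norm_mul, w9_norm ψ hx, one_mul]
    exact norm_chBb_le B t c d x
  · rw [W9_of_not hx, norm_zero]
    exact zero_le_one

theorem W9_congr (ψ : AddChar (G9 n) ℂ) (B : Finset P3) (t : P3 → ZMod 3) (c d : ZMod 3) {x y : 𝓞 K}
    (h : Q9 n * DD3 B ∣ x - y) : W9 ψ B t c d x = W9 ψ B t c d y := by
  have hQ : Q9 n ∣ x - y := (dvd_mul_right _ _).trans h
  have h9 : 9 * DD3 B ∣ x - y := (mul_dvd_mul_right (nine_dvd_Q9 n) _).trans h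
  by_cases hx : In3 x
  · unfold W9
    rw [w9_congr ψ hx hQ, chBb_congr h9]
  · have hy : ¬ In3 y := fun hy => hx ((in3_congr ((three_dvd_Q9 n).trans hQ)).2 hy)
    rw [W9_of_not hx, W9_of_not hy]

theorem W9_mulC (ψ : AddChar (G9 n) ℂ) (B : Finset P3) (t : P3 → ZMod 3) (c d : ZMod 3) :
    MulC prm3 (W9 ψ B t c d) where
  one := by
    unfold W9
    rw [w9_one, chBb_one, mul_one]
  mul q y _ := W9_mul ψ B t c d q.in3 y
  zero _ hx := W9_of_not hx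
  le := W9_norm ψ B t c d

/-- A unit modulo `Q9 n * DD3 B` with a given class, congruent to `1` modulo the primes of `B`. -/
theorem exists_res9 (n : ℕ) (B : Finset P3) {x : 𝓞 K} (hx : In3 x) :
    ∃ u : 𝓞 K, In3 u ∧ Q9 n ∣ u - x ∧ DD3 B ∣ u - 1 ∧ ∃ v w : 𝓞 K, u * v = 1 + Q9 n * DD3 B * w := by
  obtain ⟨α, β, hαβ⟩ := cop_Q9 n (DD3_in3 B)
  obtain ⟨u, hu⟩ : ∃ u : 𝓞 K, u = x * (α * DD3 B) + β * Q9 n := ⟨_, rfl⟩
  have h1 : Q9 n ∣ u - x := ⟨β - x * β, by rw [hu]; linear_combination x * hαβ⟩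
  have h2 : DD3 B ∣ u - 1 := ⟨x * α - α, by rw [hu]; linear_combination hαβ⟩
  have hui : In3 u := (in3_congr ((three_dvd_Q9 n).trans h1)).2 hx
  refine ⟨u, hui, h1, h2, ?_⟩
  have h3 : IsCoprime u (DD3 B) := by
    obtain ⟨t, ht⟩ := h2
    exact ⟨1, -t, by linear_combination ht⟩
  obtain ⟨v, w, hvw⟩ := (cop_Q9 n hui).mul_right h3
  exact ⟨v, -w, by linear_combination hvw⟩

/-- The value at the unit. -/
theorem W9_res (ψ : AddChar (G9 n) ℂ) (B : Finset P3) (t : P3 → ZMod 3) (c d : ZMod 3) (q : P3)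
    {u : 𝓞 K} (hu : In3 u) (h1 : Q9 n ∣ u - q.1) (h2 : DD3 B ∣ u - 1) :
    W9 ψ B t c d u = ψ (c9 n q) * e3 (c * d3b.a q + d * d3b.b q) := by
  have hn : ∀ p ∈ B, p.1 ∣ u - 1 := fun p hp => (dvd_DD3.2 hp).trans h2
  have hn2 : ∀ p ∈ B, ¬ p.1 ∣ u := by
    intro p hp hd
    refine p.prime.not_unit (isUnit_of_dvd_one ?_)
    have := dvd_sub hd (hn p hp)
    rwa [sub_sub_cancel] at this
  have h9 : (9 : 𝓞 K) ∣ u - q.1 := (nine_dvd_Q9 n).trans h1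
  unfold W9
  rw [w9_congr ψ hu h1, w9_of q.in3, chBb_of hu hn2]
  unfold cxb
  have h7 : ∑ p ∈ B, t p * cq p u = 0 := by
    apply sum_eq_zero
    intro p hp
    rw [cq_congr (hn2 p hp) (hn p hp), cq_one, mul_zero]
  rw [h7, add_zero, cl3_congr hu h9, cn3_congr hu h9, cl3_q, cn3_q]
  rfl

theorem e3_mul_neg (x : ZMod 3) : e3 x * e3 (-x) = 1 := by
  rw [← e3_add, add_neg_cancel, e3_zero]

/-- A character of the classes which is on the primes no character of the classes modulo nine. -/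
theorem W9_exists (ψ : AddChar (G9 n) ℂ)
    (hψ : ¬ ∃ c d : ZMod 3, ∀ q, ψ (c9 n q) = e3 (c * d3b.a q + d * d3b.b q))
    (B : Finset P3) (t : P3 → ZMod 3) (c d : ZMod 3) :
    ∃ (u v w : 𝓞 K) (z : ℂ), u * v = 1 + Q9 n * DD3 B * w ∧ z ≠ 1 ∧
      ∀ x, W9 ψ B t c d (u * x) = z * W9 ψ B t c d x := by
  obtain ⟨q, hq⟩ : ∃ q, ψ (c9 n q) * e3 (c * d3b.a q + d * d3b.b q) ≠ 1 := by
    by_contra hcon
    push Not at hcon
    refine hψ ⟨-c, -d, fun q => ?_⟩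
    have h1 := hcon q
    have h2 := e3_mul_neg (c * d3b.a q + d * d3b.b q)
    calc ψ (c9 n q) = (ψ (c9 n q) * e3 (c * d3b.a q + d * d3b.b q)) *
          e3 (-(c * d3b.a q + d * d3b.b q)) := by rw [mul_assoc, h2, mul_one]
      _ = e3 (-c * d3b.a q + -d * d3b.b q) := by
          rw [h1, one_mul]
          congr 1
          ring
  obtain ⟨u, hu, h1, h2, v, w, hvw⟩ := exists_res9 n B q.in3
  refine ⟨u, v, w, W9 ψ B t c d u, hvw, ?_, fun x => W9_mul ψ B t c d hu x⟩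
  rw [W9_res ψ B t c d q hu h1 h2]
  exact hq

theorem W9_sum (ψ : AddChar (G9 n) ℂ)
    (hψ : ¬ ∃ c d : ZMod 3, ∀ q, ψ (c9 n q) = e3 (c * d3b.a q + d * d3b.b q))
    (B : Finset P3) (t : P3 → ZMod 3) (c d : ZMod 3) (X : ℕ) (hX : 1 ≤ X) :
    ‖∑ x ∈ discE (𝓞 K) X, W9 ψ B t c d x‖ ≤ 20 * Real.sqrt ((Nz (Q9 n * DD3 B) : ℕ) * X) := by
  obtain ⟨u, v, w, z, h1, h2, h3⟩ := W9_exists ψ hψ B t c d
  have h4 := sum_discEC' (Q9 n * DD3 B) (mul_ne_zero (Q9_ne n) (DD3_in3 B).ne_zero) (W9 ψ B t c d)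
    (W9_norm ψ B t c d) (fun x y => W9_congr ψ B t c d ⟨y, by ring⟩) u v w h1 z h2 h3 X hX
  rw [nE_eq] at h4
  exact h4

theorem W9_DD3 (ψ : AddChar (G9 n) ℂ) (B : Finset P3) (t : P3 → ZMod 3) (c d : ZMod 3)
    (S : Finset P3) : W9 ψ B t c d (DD3 S) =
      if Disjoint S B then ∏ q ∈ S, (ψ (c9 n q) * e3 (d3b.exb B t c d q)) else 0 := by
  unfold W9
  rw [chBb_DD3]
  split_ifs with h
  · have h1 : w9 ψ (DD3 S) = ∏ q ∈ S, ψ (c9 n q) := by
      rw [w9_of (DD3_in3 S), g9_DD3]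
      clear h
      induction S using Finset.induction_on with
      | empty => rw [sum_empty, prod_empty, AddChar.map_zero_eq_one]
      | insert a S ha ih => rw [sum_insert ha, prod_insert ha, AddChar.map_add_eq_mul, ih]
    rw [h1, ← prod_mul_distrib]
  · rw [mul_zero]

open Classical in
/-- **The dichotomy.** -/
theorem dich9 (n : ℕ) (ψ : AddChar (G9 n) ℂ) :
    (∃ c d : ZMod 3, ∀ q, ψ (c9 n q) = e3 (c * d3b.a q + d * d3b.b q)) ∨
    (∀ (B : Finset P3) (t : P3 → ZMod 3) (c d : ZMod 3) (ε : ℝ), 0 < ε → ∃ X₀ : ℕ, ∀ X : ℕ,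
      X₀ ≤ X → ‖∑ S ∈ (Sx P3 X).filter (fun S => Disjoint S B),
        ∏ q ∈ S, (ψ (c9 n q) * e3 (d3b.exb B t c d q))‖ ≤ ε * X) := by
  by_cases hψ : ∃ c d : ZMod 3, ∀ q, ψ (c9 n q) = e3 (c * d3b.a q + d * d3b.b q)
  · exact Or.inl hψ
  · refine Or.inr fun B t c d ε hε => ?_
    have h0 : ¬ prm3.P 0 := fun h => In3.ne_zero h rfl
    obtain ⟨X₀, hX₀⟩ := prm3.mean_zero h0 (W9 ψ B t c d) (W9_mulC ψ B t c d)
      (B := 20 * Real.sqrt (Nz (Q9 n * DD3 B) : ℕ)) (by positivity) (fun X hX => by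
        have h1 := W9_sum ψ hψ B t c d X hX
        rw [Real.sqrt_mul (Nat.cast_nonneg _)] at h1
        rw [mul_assoc]
        exact h1) ε hε
    refine ⟨X₀, fun X hX => ?_⟩
    have h1 := hX₀ X hX
    have h2 : ∑ S ∈ Sx P3 X, W9 ψ B t c d (prm3.dd S) =
        ∑ S ∈ (Sx P3 X).filter (fun S => Disjoint S B),
          ∏ q ∈ S, (ψ (c9 n q) * e3 (d3b.exb B t c d q)) := by
      rw [sum_filter]
      refine sum_congr rfl fun S _ => ?_
      have h3 : W9 ψ B t c d (prm3.dd S) = W9 ψ B t c d (DD3 S) := rfl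
      rw [h3, W9_DD3]
    rw [h2] at h1
    exact h1

end

end Pool.Agent.Lib.MP_1a91b9_ntS3.G
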