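import Pool.Agent.Lib.MP_1a91b9_ntS3.G.MainOfG
import Pool.Agent.Lib.MP_1a91b9_ntS3.C.One
import Pool.Agent.Lib.MP_1a91b9_ntS3.Q.Conv
import Pool.Agent.Lib.MP_1a91b9_ntS3.DG.DenW

/-!
# MP_1a91b9_nt (cubic twists, classes modulo powers of three): the cube-free twists of
`y² + D y = x³` over the Eisenstein field in every class modulo a divisor of a power of three
-/

set_option autoImplicit false

namespace Pool.Agent.Lib.MP_1a91b9_ntS3.G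

open NumberField IsDedekindDomain Finset Pool.Agent.Lib.MP_1a91b9_ntT Pool.Agent.Lib.MP_1a91b9_ntK
  Pool.Agent.Lib.MP_1a91b9_ntK2 Pool.Agent.Lib.MP_1a91b9_ntK2.D9
open Pool.Agent.Lib.MP_1a91b9_ntS (BSDMod)

noncomputable section

theorem densG3_9 (n : ℕ) : DG.DensG3 d3b (c9 n) :=
  haveI : Fintype (G9 n) := Fintype.ofFinite (G9 n)
  DG.densG3 d3b_OK card_P3 (dich3_9 n)

theorem main_q3G :
    ∃ q : 𝓞 (CyclotomicField 3 ℚ) → ℚ,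
    (∀ D : 𝓞 (CyclotomicField 3 ℚ), (∀ p, Prime p → ¬ p ^ 3 ∣ D) →
      ∀ W : WeierstrassCurve (CyclotomicField 3 ℚ),
        W = ⟨0, 0, (D : CyclotomicField 3 ℚ), 0, 0⟩ → BSDMod 3 W (q D)) ∧
    ∀ (n : ℕ) (s m u : 𝓞 (CyclotomicField 3 ℚ)), s ^ 2 = -3 → m ∣ 3 ^ n →
      ¬ (s ^ 3 ∣ m ∧ s ^ 3 ∣ u) →
      Filter.Tendsto (fun X : ℝ =>
        (Nat.card {D : 𝓞 (CyclotomicField 3 ℚ) // (∀ p, Prime p → ¬ p ^ 3 ∣ D) ∧ m ∣ D - u ∧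
          |Algebra.norm ℤ D| ≤ X ∧ ¬ 3 ∣ (q D).num} : ℝ) /
        (Nat.card {D : 𝓞 (CyclotomicField 3 ℚ) // (∀ p, Prime p → ¬ p ^ 3 ∣ D) ∧ m ∣ D - u ∧
          |Algebra.norm ℤ D| ≤ X} : ℝ)) Filter.atTop
        (nhds (∏' i : ℕ, (1 + 1 / (3 : ℝ) ^ (i + 1))⁻¹)) :=
  mainG_of conv9 (fun _ hD => wd_unit hD) densG3_9

end

end Pool.Agent.Lib.MP_1a91b9_ntS3.G
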