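import Pool.Agent.Lib.MP_1a91b9_ntS3.G.Dich9
import Pool.Agent.Lib.MP_1a91b9_ntK2.R.DensityAll9

/-!
# MP_1a91b9_nt (cubic twists, classes modulo powers of three), part R: every class has positive density
-/

set_option autoImplicit false

namespace Pool.Agent.Lib.MP_1a91b9_ntS3.G

open NumberField Finset Pool.Agent.Lib.MP_1a91b9_ntT Pool.Agent.Lib.MP_1a91b9_ntK
open Pool.Agent.Lib.MP_1a91b9_ntK2 (D9.md3)
open Pool.Agent.Lib.MP_1a91b9_ntH (wO s3 Nz Nz_coords Nz_mul Nz_one Nz_eq_zero PS nm one_le_nm pr Sx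
  mem_Sx CharB s3_sq discE nE_eq)

noncomputable section

variable {n : ℕ}

theorem psi9_one (ψ : AddChar (G9 n) ℂ) (h : ∀ q, ψ (c9 n q) = 1) :
    ∀ (N : ℕ) (x : 𝓞 K) (hx : In3 x), Nz x ≤ N → ψ (g9 n x hx) = 1 := by
  intro N
  induction N with
  | zero =>
    intro x hx hn
    exact absurd (Nz_eq_zero.1 (Nat.le_zero.1 hn)) hx.ne_zero
  | succ N ih =>
    intro x hx hn
    by_cases h1 : x = 1
    · subst h1
      rw [g9_one, AddChar.map_zero_eq_one]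
    · obtain ⟨q, y, hy⟩ := prm3.ex x hx h1
      have hy' : x = q.1 * y := hy
      subst hy'
      have hy4 : In3 y := In3.of_mul q.in3 hx
      have h2 : Nz y ≤ N := by
        rw [Nz_mul] at hn
        have h3 : 2 ≤ Nz q.1 := prm3.two_le q
        have h4 : 0 < Nz y := Nz_pos' hy4.ne_zero
        nlinarith
      have h5 : g9 n (q.1 * y) hx = g9 n q.1 q.in3 + g9 n y hy4 := g9_mul n q.in3 hy4
      rw [h5, AddChar.map_add_eq_mul, ih y hy4 h2, mul_one]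
      exact h q

theorem psi9_eq_one (ψ : AddChar (G9 n) ℂ) (h : ∀ q, ψ (c9 n q) = 1) : ψ = 1 := by
  ext g
  obtain ⟨x, hx, rfl⟩ := g9_surj n g
  rw [psi9_one ψ h (Nz x) x hx le_rfl]
  rfl

/-- The mean value of a nontrivial character of the classes. -/
theorem mean9 (ψ : AddChar (G9 n) ℂ) (hψ : ψ ≠ 1) (ε : ℝ) (hε : 0 < ε) :
    ∃ X₀ : ℕ, ∀ X : ℕ, X₀ ≤ X → ‖∑ S ∈ Sx P3 X, ∏ q ∈ S, ψ (c9 n q)‖ ≤ ε * X := by
  classical
  rcases dich9 n ψ with ⟨c, d, h⟩ | h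
  · have hcd : c ≠ 0 ∨ d ≠ 0 := by
      by_contra h1
      push Not at h1
      refine hψ (psi9_eq_one ψ fun q => ?_)
      rw [h q, h1.1, h1.2, zero_mul, zero_mul, add_zero, e3_zero]
    obtain ⟨X₀, h3⟩ := d3b_h3 ∅ ∅ (fun _ => 0) c d (empty_subset _)
      (fun q hq => absurd hq (notMem_empty q)) (Or.inr hcd) ε hε
    refine ⟨X₀, fun X hX => ?_⟩
    have h4 := h3 X hX
    rw [filter_true_of_mem (fun S _ => disjoint_empty_right S)] at h4
    refine le_trans (le_of_eq ?_) h4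
    congr 1
    refine sum_congr rfl fun S _ => prod_congr rfl fun q _ => ?_
    rw [h q]
    congr 1
    unfold Dat3b.exb
    rw [sum_empty, add_zero]
  · obtain ⟨X₀, h3⟩ := h ∅ (fun _ => 0) 0 0 ε hε
    refine ⟨X₀, fun X hX => ?_⟩
    have h4 := h3 X hX
    rw [filter_true_of_mem (fun S _ => disjoint_empty_right S)] at h4
    refine le_trans (le_of_eq ?_) h4
    congr 1
    refine sum_congr rfl fun S _ => prod_congr rfl fun q _ => ?_
    have h5 : d3b.exb ∅ (fun _ => 0) 0 0 q = 0 := by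
      unfold Dat3b.exb
      rw [sum_empty, zero_mul, zero_mul, add_zero, add_zero]
    rw [h5, e3_zero, mul_one]

theorem psi9_sum (ψ : AddChar (G9 n) ℂ) (S : Finset P3) :
    ψ (∑ q ∈ S, c9 n q) = ∏ q ∈ S, ψ (c9 n q) := by
  classical
  induction S using Finset.induction_on with
  | empty => rw [sum_empty, prod_empty, AddChar.map_zero_eq_one]
  | insert a S ha ih => rw [sum_insert ha, prod_insert ha, AddChar.map_add_eq_mul, ih]

open Classical in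
/-- The sets with a given class. -/
def SC9 (n : ℕ) (g : G9 n) (X : ℕ) : Finset (Finset P3) :=
  (Sx P3 X).filter fun S => ∑ q ∈ S, c9 n q = g

/-- The orthogonality relation. -/
theorem card_SC9 [Fintype (G9 n)] (g : G9 n) (X : ℕ) :
    (Fintype.card (G9 n) : ℂ) * ((SC9 n g X).card : ℂ) =
      ∑ ψ : AddChar (G9 n) ℂ, ψ (-g) * ∑ S ∈ Sx P3 X, ∏ q ∈ S, ψ (c9 n q) := by
  classical
  have h1 : ∀ S ∈ Sx P3 X, ∑ ψ : AddChar (G9 n) ℂ, ψ (-g) * ∏ q ∈ S, ψ (c9 n q) =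
      if ∑ q ∈ S, c9 n q = g then (Fintype.card (G9 n) : ℂ) else 0 := by
    intro S _
    have h2 : ∀ ψ : AddChar (G9 n) ℂ, ψ (-g) * ∏ q ∈ S, ψ (c9 n q) =
        ψ (-g + ∑ q ∈ S, c9 n q) := by
      intro ψ
      rw [AddChar.map_add_eq_mul, psi9_sum]
    simp only [h2]
    rw [AddChar.sum_apply_eq_ite]
    by_cases h3 : ∑ q ∈ S, c9 n q = g
    · rw [if_pos h3, if_pos (by rw [h3, neg_add_cancel])]
    · rw [if_neg h3, if_neg (fun h4 => h3 (by rwa [neg_add_eq_zero, eq_comm] at h4))]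
  simp only [mul_sum]
  rw [sum_comm, sum_congr rfl h1, ← sum_filter, sum_const, nsmul_eq_mul, mul_comm, SC9]

/-- **Every class has positive density.** -/
theorem SC9_ge (n : ℕ) (g : G9 n) : ∃ c : ℝ, 0 < c ∧ ∃ X₀ : ℕ, ∀ X : ℕ, X₀ ≤ X →
    c * X ≤ ((SC9 n g X).card : ℝ) := by
  classical
  let _ : Fintype (G9 n) := Fintype.ofFinite _
  obtain ⟨c, hc, X₁, h1⟩ := Prm.card_ge D9.md3
  obtain ⟨N, hN⟩ : ∃ N : ℝ, N = (Fintype.card (G9 n) : ℝ) := ⟨_, rfl⟩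
  have hN0 : 0 < N := by
    rw [hN]
    exact_mod_cast Fintype.card_pos
  have hε : 0 < c / (2 * N) := by positivity
  have h2 : ∀ ψ : AddChar (G9 n) ℂ, ∃ X₀ : ℕ, ∀ X : ℕ, X₀ ≤ X → ψ ≠ 1 →
      ‖∑ S ∈ Sx P3 X, ∏ q ∈ S, ψ (c9 n q)‖ ≤ c / (2 * N) * X := by
    intro ψ
    by_cases hψ : ψ = 1
    · exact ⟨0, fun X _ h => absurd hψ h⟩
    · obtain ⟨X₀, h4⟩ := mean9 ψ hψ _ hε
      exact ⟨X₀, fun X hX _ => h4 X hX⟩
  choose X₂ h2 using h2
  refine ⟨c / (2 * N), hε, X₁ + ∑ ψ, X₂ ψ, fun X hX => ?_⟩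
  have hX2 : ∀ ψ, X₂ ψ ≤ X := fun ψ =>
    (single_le_sum (fun _ _ => Nat.zero_le _) (mem_univ ψ)).trans ((Nat.le_add_left _ _).trans hX)
  have e := card_SC9 g X
  rw [← add_sum_erase _ _ (mem_univ (1 : AddChar (G9 n) ℂ))] at e
  have e0 : (1 : AddChar (G9 n) ℂ) (-g) * ∑ S ∈ Sx P3 X, ∏ q ∈ S,
      (1 : AddChar (G9 n) ℂ) (c9 n q) = ((Sx P3 X).card : ℂ) := by
    simp
  rw [e0] at e
  have hX0 : (0 : ℝ) ≤ X := Nat.cast_nonneg _
  have hrest : ‖∑ ψ ∈ (univ : Finset (AddChar (G9 n) ℂ)).erase 1,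
      ψ (-g) * ∑ S ∈ Sx P3 X, ∏ q ∈ S, ψ (c9 n q)‖ ≤ N * (c / (2 * N) * X) := by
    refine (norm_sum_le _ _).trans ?_
    have h3 : ∀ ψ ∈ (univ : Finset (AddChar (G9 n) ℂ)).erase 1,
        ‖ψ (-g) * ∑ S ∈ Sx P3 X, ∏ q ∈ S, ψ (c9 n q)‖ ≤ c / (2 * N) * X := by
      intro ψ hψ
      rw [norm_mul, AddChar.norm_apply, one_mul]
      exact h2 ψ X (hX2 ψ) (mem_erase.1 hψ).1
    refine (sum_le_sum h3).trans ?_
    rw [sum_const, nsmul_eq_mul]
    have h4 : ((univ : Finset (AddChar (G9 n) ℂ)).erase 1).card ≤ Fintype.card (G9 n) := by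
      refine (card_le_card (erase_subset _ _)).trans ?_
      rw [card_univ, AddChar.card_eq]
    have h5 : (((univ : Finset (AddChar (G9 n) ℂ)).erase 1).card : ℝ) ≤ N := by
      rw [hN]
      exact_mod_cast h4
    exact mul_le_mul_of_nonneg_right h5 (by positivity)
  have h4 := h1 X (by omega)
  have h5 : N * ((SC9 n g X).card : ℝ) ≥ ((Sx P3 X).card : ℝ) - N * (c / (2 * N) * X) := by
    have h6 : ‖((Sx P3 X).card : ℂ)‖ ≤
        ‖(Fintype.card (G9 n) : ℂ) * ((SC9 n g X).card : ℂ)‖ + N * (c / (2 * N) * X) := by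
      have h7 : ((Sx P3 X).card : ℂ) = (Fintype.card (G9 n) : ℂ) * ((SC9 n g X).card : ℂ) -
          ∑ ψ ∈ (univ : Finset (AddChar (G9 n) ℂ)).erase 1,
            ψ (-g) * ∑ S ∈ Sx P3 X, ∏ q ∈ S, ψ (c9 n q) := by
        rw [e]
        ring
      rw [h7]
      refine (norm_sub_le _ _).trans ?_
      linarith
    rw [norm_mul, Complex.norm_natCast, Complex.norm_natCast, Complex.norm_natCast, ← hN] at h6
    linarith
  have h6 : N * (c / (2 * N) * X) = c * X / 2 := by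
    field_simp
  rw [h6] at h5
  have h7 : N * (c / (2 * N) * X) ≤ N * ((SC9 n g X).card : ℝ) := by
    rw [h6]
    linarith
  exact le_of_mul_le_mul_left h7 hN0

end

end Pool.Agent.Lib.MP_1a91b9_ntS3.G
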