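import Pool.Agent.Lib.MP_1a91b9_ntS3.G.Cls9

/-!
# MP_1a91b9_nt (cubic twists, classes modulo powers of three), part R: transfer of the density to all
cube-free elements

The families are given by the sign, the powers of `w` and `s3` and the class modulo `3 ^ (n + 2)`.
-/

set_option autoImplicit false

namespace Pool.Agent.Lib.MP_1a91b9_ntS3.G

open NumberField Finset Pool.Agent.Lib.MP_1a91b9_ntT Pool.Agent.Lib.MP_1a91b9_ntK
open Pool.Agent.Lib.MP_1a91b9_ntK2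
open Pool.Agent.Lib.MP_1a91b9_ntK2.D9 (Idx ph Cy ph_eq ph_inj ph_cf exists_ph Nz_ph Y Nz_ph_le
  tendsto_Y finite_le)
open Pool.Agent.Lib.MP_1a91b9_ntH (wO s3 Nz Nz_coords Nz_mul Nz_one Nz_eq_zero PS nm one_le_nm pr Sx
  mem_Sx CharB s3_sq discE nE_eq abs_norm_le)

noncomputable section

variable {n : ℕ}

/-- The indices of the families. -/
abbrev IdG (n : ℕ) : Type := Bool × Fin 3 × Fin 3 × G9 n

/-- The index modulo nine. -/
def toI (i : IdG n) : Idx := (i.1, i.2.1, i.2.2.1, aG9 n i.2.2.2, bG9 n i.2.2.2)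

/-- The elements of a class. -/
def FcG (i : IdG n) (y : 𝓞 K) : Prop := ∃ h : In3 y, g9 n y h = i.2.2.2

/-- The cube-free elements of a class. -/
def CyG (i : IdG n) (y : 𝓞 K) : Prop := CF y ∧ FcG i y

theorem CyG.cy {i : IdG n} {y : 𝓞 K} (h : CyG i y) : Cy (toI i) y := by
  obtain ⟨h1, h2, h3⟩ := h
  refine ⟨h1, h2, ?_, ?_⟩
  · change cl3 y = aG9 n i.2.2.2
    rw [← h3, aG9_g9]
  · change cn3 y = bG9 n i.2.2.2
    rw [← h3, bG9_g9]

theorem phG_inj {i i' : IdG n} {y y' : 𝓞 K} (hy : CyG i y) (hy' : CyG i' y')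
    (h : ph (toI i) y = ph (toI i') y') : i = i' ∧ y = y' := by
  obtain ⟨h1, h2⟩ := ph_inj hy.cy hy'.cy h
  subst h2
  refine ⟨?_, rfl⟩
  obtain ⟨b, k, j, g⟩ := i
  obtain ⟨b', k', j', g'⟩ := i'
  obtain ⟨-, a1, a2⟩ := hy
  obtain ⟨-, a3, a4⟩ := hy'
  dsimp only at a2 a4
  have e1 : g = g' := by rw [← a2, ← a4]
  subst e1
  unfold toI at h1
  dsimp only at h1
  rw [Prod.mk.injEq, Prod.mk.injEq, Prod.mk.injEq] at h1
  rw [h1.1, h1.2.1, h1.2.2.1]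

theorem existsG_ph {x : 𝓞 K} (hx : CF x) : ∃ (i : IdG n) (y : 𝓞 K), CyG i y ∧ ph (toI i) y = x := by
  obtain ⟨i, y, hy, hxy⟩ := exists_ph hx
  obtain ⟨b, k, j, α, β⟩ := i
  refine ⟨(b, k, j, g9 n y hy.2.1), y, ⟨hy.1, hy.2.1, rfl⟩, ?_⟩
  rw [← hxy]
  rfl

/-- The number of the cube-free elements with a property is the sum over the families. -/
theorem cardG_all [Fintype (G9 n)] (X : ℝ) (P : 𝓞 K → Prop) :
    Nat.card {x : 𝓞 K // CF x ∧ (Nz x : ℝ) ≤ X ∧ P x} =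
      ∑ i : IdG n, Nat.card {y : 𝓞 K // CyG i y ∧ (Nz y : ℝ) ≤ Y (toI i) X ∧ P (ph (toI i) y)} := by
  have hfin : ∀ i : IdG n,
      Finite {y : 𝓞 K // CyG i y ∧ (Nz y : ℝ) ≤ Y (toI i) X ∧ P (ph (toI i) y)} := by
    intro i
    have := finite_le (Y (toI i) X)
    exact Finite.of_injective (β := {x : 𝓞 K // (Nz x : ℝ) ≤ Y (toI i) X})
      (fun x => ⟨x.1, x.2.2.1⟩) (fun a b h => Subtype.ext (Subtype.mk.inj h))
  rw [← Nat.card_sigma]
  symm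
  refine Nat.card_congr (Equiv.ofBijective
    (fun s => ⟨ph (toI s.1) s.2.1, ph_cf s.2.2.1.cy, (Nz_ph_le _ _ _).2 s.2.2.2.1, s.2.2.2.2⟩)
    ⟨?_, ?_⟩)
  · rintro ⟨i, x, hx, hx2⟩ ⟨i', x', hx', hx2'⟩ h
    have h1 : ph (toI i) x = ph (toI i') x' := congrArg Subtype.val h
    obtain ⟨rfl, rfl⟩ := phG_inj hx hx' h1
    rfl
  · rintro ⟨δ, h1, h2, h3⟩
    obtain ⟨i, x, hx, rfl⟩ := existsG_ph (n := n) h1
    exact ⟨⟨i, x, hx, (Nz_ph_le _ _ _).1 h2, h3⟩, rfl⟩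

/-- The class of a pair. -/
def sP (n : ℕ) (S T : Finset P3) : G9 n := ∑ q ∈ S, c9 n q + (∑ q ∈ T, c9 n q + ∑ q ∈ T, c9 n q)

theorem FcG_pp (i : IdG n) (S T : Finset P3) : FcG i (DD3 S * DD3 T ^ 2) ↔ sP n S T = i.2.2.2 := by
  unfold sP
  rw [← g9_pp]
  constructor
  · rintro ⟨h, h1⟩
    exact h1
  · intro h
    exact ⟨in3_pq S T, h⟩

open Classical in
/-- The density in one family. -/
theorem familyG (i : IdG n) (κ κ' : ℝ) (hκ0 : 0 ≤ κ) (hκ : κ' < κ)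
    (Good : Finset P3 → Finset P3 → Prop)
    (h : ∀ T : Finset P3, ∀ ε : ℝ, 0 < ε → ∃ X₀ : ℕ, ∀ X : ℕ, X₀ ≤ X →
      κ * (((Sx P3 X).filter fun S => Disjoint S T ∧ sP n S T = i.2.2.2).card : ℝ) - ε * X ≤
      (((Sx P3 X).filter fun S => Disjoint S T ∧ sP n S T = i.2.2.2 ∧ Good S T).card : ℝ))
    (Pr : 𝓞 K → Prop) (hPr : ∀ S T : Finset P3, Disjoint S T → sP n S T = i.2.2.2 → Good S T →
      Pr (ph (toI i) (DD3 S * DD3 T ^ 2))) :
    ∀ᶠ X : ℝ in Filter.atTop,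
      0 < Nat.card {y : 𝓞 K // CyG i y ∧ (Nz y : ℝ) ≤ X} ∧
      κ' * (Nat.card {y : 𝓞 K // CyG i y ∧ (Nz y : ℝ) ≤ X} : ℝ) ≤
        (Nat.card {y : 𝓞 K // CyG i y ∧ (Nz y : ℝ) ≤ X ∧ Pr (ph (toI i) y)} : ℝ) := by
  have hpp : ∀ S T : Finset P3, (1 : 𝓞 K) * prm3.pp S T = DD3 S * DD3 T ^ 2 := fun S T => one_mul _
  have hpd : ∀ S : Finset P3, (1 : 𝓞 K) * prm3.pd S = DD3 S := fun S => one_mul _
  have key := prm3.cf_density isUnit_one (FcG i) (fun x hx => ⟨x, hx.1, (one_mul x).symm⟩)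
    (C := 25) prm3.card_le κ κ' hκ0 hκ Good (by
      intro T ε hε
      obtain ⟨X₀, hX₀⟩ := h T ε hε
      refine ⟨X₀, fun X hX => ?_⟩
      have h1 := hX₀ X hX
      simp only [hpp, FcG_pp]
      exact h1) (by
      obtain ⟨c, hc, X₀, hX₀⟩ := SC9_ge n i.2.2.2
      refine ⟨c, hc, X₀, fun X hX => (hX₀ X hX).trans ?_⟩
      refine Nat.cast_le.2 (card_le_card ?_)
      intro S hS
      rw [SC9, mem_filter] at hS
      rw [mem_filter, hpd]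
      exact ⟨hS.1, DD3_in3 S, by rw [g9_DD3]; exact hS.2⟩) (fun x => Pr (ph (toI i) x)) (by
      intro S T hST hF hG
      rw [hpp] at hF ⊢
      exact hPr S T hST ((FcG_pp i S T).1 hF) hG)
  filter_upwards [key] with X hX
  simp only [abs_norm_le] at hX
  have e1 : Nat.card {x : 𝓞 K // CF x ∧ FcG i x ∧ (Nz x : ℝ) ≤ X} =
      Nat.card {y : 𝓞 K // CyG i y ∧ (Nz y : ℝ) ≤ X} :=
    Nat.card_congr (Equiv.subtypeEquivRight fun x => by
      unfold CyG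
      tauto)
  have e2 : Nat.card {x : 𝓞 K // CF x ∧ FcG i x ∧ (Nz x : ℝ) ≤ X ∧ Pr (ph (toI i) x)} =
      Nat.card {y : 𝓞 K // CyG i y ∧ (Nz y : ℝ) ≤ X ∧ Pr (ph (toI i) y)} :=
    Nat.card_congr (Equiv.subtypeEquivRight fun x => by
      unfold CyG
      tauto)
  rw [e1, e2] at hX
  exact ⟨hX.2, hX.1⟩

open Classical in
/-- **The density among the cube-free elements with a condition `R` which only depends on the sign, the
powers of `w` and `s3` and the class modulo `3 ^ (n + 2)` of the remaining factor.** -/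
theorem density_allG (n : ℕ) (R : 𝓞 K → Prop)
    (hR : ∀ (i : IdG n) (y y' : 𝓞 K), In3 y → In3 y' → Q9 n ∣ y - y' →
      (R (ph (toI i) y) ↔ R (ph (toI i) y')))
    (hne : ∃ x, CF x ∧ R x) (κ κ' : ℝ) (hκ0 : 0 ≤ κ) (hκ : κ' < κ)
    (Good : IdG n → Finset P3 → Finset P3 → Prop)
    (h : ∀ i : IdG n, ∀ T : Finset P3, ∀ ε : ℝ, 0 < ε → ∃ X₀ : ℕ, ∀ X : ℕ, X₀ ≤ X →
      κ * (((Sx P3 X).filter fun S => Disjoint S T ∧ sP n S T = i.2.2.2).card : ℝ) - ε * X ≤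
      (((Sx P3 X).filter fun S => Disjoint S T ∧ sP n S T = i.2.2.2 ∧ Good i S T).card : ℝ))
    (Pr : 𝓞 K → Prop) (hPr : ∀ (i : IdG n) (S T : Finset P3), Disjoint S T → sP n S T = i.2.2.2 →
      Good i S T → Pr (ph (toI i) (DD3 S * DD3 T ^ 2))) :
    ∀ᶠ X : ℝ in Filter.atTop,
      κ' ≤ (Nat.card {x : 𝓞 K // CF x ∧ R x ∧ |Algebra.norm ℤ x| ≤ X ∧ Pr x} : ℝ) /
        (Nat.card {x : 𝓞 K // CF x ∧ R x ∧ |Algebra.norm ℤ x| ≤ X} : ℝ) := by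
  let _ : Fintype (G9 n) := Fintype.ofFinite _
  obtain ⟨J, hJ⟩ : ∃ J : Finset (IdG n), ∀ i, i ∈ J ↔ ∃ y, CyG i y ∧ R (ph (toI i) y) :=
    ⟨univ.filter fun i => ∃ y, CyG i y ∧ R (ph (toI i) y), fun i => by
      rw [mem_filter, and_iff_right (mem_univ _)]⟩
  have hRi : ∀ (i : IdG n) (y : 𝓞 K), CyG i y → (R (ph (toI i) y) ↔ i ∈ J) := by
    intro i y hy
    rw [hJ]
    constructor
    · intro h1
      exact ⟨y, hy, h1⟩
    · rintro ⟨y', hy', h1⟩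
      obtain ⟨-, a1, a2⟩ := hy
      obtain ⟨-, a3, a4⟩ := hy'
      exact (hR i y' y a3 a1 ((g9_eq_iff n a3 a1).1 (by rw [a2, a4]))).1 h1
  have hJne : J.Nonempty := by
    obtain ⟨x, hx, hRx⟩ := hne
    obtain ⟨i, y, hy, rfl⟩ := existsG_ph (n := n) hx
    exact ⟨i, (hRi i y hy).1 hRx⟩
  -- the numbers
  have hcount : ∀ (X : ℝ) (P : 𝓞 K → Prop),
      Nat.card {x : 𝓞 K // CF x ∧ R x ∧ (Nz x : ℝ) ≤ X ∧ P x} =
        ∑ i ∈ J, Nat.card {y : 𝓞 K // CyG i y ∧ (Nz y : ℝ) ≤ Y (toI i) X ∧ P (ph (toI i) y)} := by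
    intro X P
    have e : Nat.card {x : 𝓞 K // CF x ∧ R x ∧ (Nz x : ℝ) ≤ X ∧ P x} =
        Nat.card {x : 𝓞 K // CF x ∧ (Nz x : ℝ) ≤ X ∧ (R x ∧ P x)} :=
      Nat.card_congr (Equiv.subtypeEquivRight fun x => by tauto)
    rw [e, cardG_all (n := n) X (fun x => R x ∧ P x)]
    rw [← sum_subset (subset_univ J) (f := fun i : IdG n =>
      Nat.card {y : 𝓞 K // CyG i y ∧ (Nz y : ℝ) ≤ Y (toI i) X ∧
        (R (ph (toI i) y) ∧ P (ph (toI i) y))})]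
    · refine sum_congr rfl fun i hi => Nat.card_congr (Equiv.subtypeEquivRight fun x => ?_)
      constructor
      · rintro ⟨a, b, -, d⟩
        exact ⟨a, b, d⟩
      · rintro ⟨a, b, d⟩
        exact ⟨a, b, (hRi i x a).2 hi, d⟩
    · intro i _ hi
      have : IsEmpty {y : 𝓞 K // CyG i y ∧ (Nz y : ℝ) ≤ Y (toI i) X ∧
          (R (ph (toI i) y) ∧ P (ph (toI i) y))} :=
        ⟨fun x => hi ((hRi i x.1 x.2.1).1 x.2.2.2.1)⟩
      exact Nat.card_of_isEmpty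
  have hcount' : ∀ (X : ℝ),
      Nat.card {x : 𝓞 K // CF x ∧ R x ∧ (Nz x : ℝ) ≤ X} =
        ∑ i ∈ J, Nat.card {y : 𝓞 K // CyG i y ∧ (Nz y : ℝ) ≤ Y (toI i) X} := by
    intro X
    have := hcount X (fun _ => True)
    simpa only [and_true] using this
  -- the single families
  have hi : ∀ i : IdG n, ∀ᶠ X : ℝ in Filter.atTop, i ∈ J →
      0 < Nat.card {y : 𝓞 K // CyG i y ∧ (Nz y : ℝ) ≤ Y (toI i) X} ∧
      κ' * (Nat.card {y : 𝓞 K // CyG i y ∧ (Nz y : ℝ) ≤ Y (toI i) X} : ℝ) ≤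
        (Nat.card {y : 𝓞 K // CyG i y ∧ (Nz y : ℝ) ≤ Y (toI i) X ∧ Pr (ph (toI i) y)} : ℝ) := by
    intro i
    have h1 := (tendsto_Y (toI i)).eventually (familyG i κ κ' hκ0 hκ (Good i) (h i) Pr
      (fun S T hST h2 h4 => hPr i S T hST h2 h4))
    filter_upwards [h1] with X hX _
    exact hX
  have hall := Filter.eventually_all.2 hi
  filter_upwards [hall] with X hX
  simp only [abs_norm_le]
  rw [hcount X Pr, hcount' X]
  push_cast
  have hpos : (0 : ℝ) < ∑ i ∈ J, (Nat.card {y : 𝓞 K // CyG i y ∧ (Nz y : ℝ) ≤ Y (toI i) X} : ℝ) :=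
    sum_pos (fun i hiJ => by exact_mod_cast (hX i hiJ).1) hJne
  rw [le_div_iff₀ hpos, mul_sum]
  exact sum_le_sum fun i hiJ => (hX i hiJ).2

/-! ### The residue classes -/

/-- The condition of a residue class modulo `m`, a divisor of `Q9 n`. -/
theorem hR_cls {m u : 𝓞 K} (hm : m ∣ Q9 n) (i : IdG n) (y y' : 𝓞 K) (h9 : Q9 n ∣ y - y') :
    (m ∣ ph (toI i) y - u ↔ m ∣ ph (toI i) y' - u) := by
  have h1 : m ∣ ph (toI i) y - ph (toI i) y' := by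
    refine hm.trans ?_
    unfold ph
    rw [← mul_sub, ← mul_sub]
    exact Dvd.dvd.mul_left (Dvd.dvd.mul_left h9 _) _
  constructor
  · intro h2
    have e : ph (toI i) y' - u = (ph (toI i) y - u) - (ph (toI i) y - ph (toI i) y') := by ring
    rw [e]
    exact dvd_sub h2 h1
  · intro h2
    have e : ph (toI i) y - u = (ph (toI i) y' - u) + (ph (toI i) y - ph (toI i) y') := by ring
    rw [e]
    exact dvd_add h2 h1

end

end Pool.Agent.Lib.MP_1a91b9_ntS3.G
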