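import Pool.Agent.Lib.MP_1a91b9_ntS3.G.LimG
import Pool.Agent.Lib.MP_1a91b9_ntS3.Q.MainOf

/-!
# MP_1a91b9_nt (cubic twists, classes modulo powers of three): the conjecture of Birch and
Swinnerton-Dyer modulo 3 for every cubic twist, from the converse of the descent and the densities
-/

set_option autoImplicit false

namespace Pool.Agent.Lib.MP_1a91b9_ntS3.G

open NumberField IsDedekindDomain Finset Pool.Agent.Lib.MP_1a91b9_ntT Pool.Agent.Lib.MP_1a91b9_ntK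
  Pool.Agent.Lib.MP_1a91b9_ntK2 Pool.Agent.Lib.MP_1a91b9_ntK2.D9
open Pool.Agent.Lib.MP_1a91b9_ntS (BSDMod)
open Pool.Agent.Lib.MP_1a91b9_ntS3 (Conv9 One3 qv qv_spec qv_iff not_one9 not_s3_pow)
open Pool.Agent.Lib.MP_1a91b9_ntS3.DG (DensG3)

noncomputable section

theorem pow3_dvd_Q9 (n : ℕ) : (3 : 𝓞 K) ^ n ∣ Q9 n := ⟨9, by unfold Q9; ring⟩

theorem mainG_of (hC : Conv9) (hO : One3) (hD : ∀ n, DensG3 d3b (c9 n)) :
    ∃ q : 𝓞 (CyclotomicField 3 ℚ) → ℚ,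
    (∀ D : 𝓞 (CyclotomicField 3 ℚ), (∀ p, Prime p → ¬ p ^ 3 ∣ D) →
      ∀ W : WeierstrassCurve (CyclotomicField 3 ℚ),
        W = ⟨0, 0, (D : CyclotomicField 3 ℚ), 0, 0⟩ → BSDMod 3 W (q D)) ∧
    ∀ (n : ℕ) (s m u : 𝓞 (CyclotomicField 3 ℚ)), s ^ 2 = -3 → m ∣ 3 ^ n →
      ¬ (s ^ 3 ∣ m ∧ s ^ 3 ∣ u) →
      Filter.Tendsto (fun X : ℝ =>
        (Nat.card {D : 𝓞 (CyclotomicField 3 ℚ) // (∀ p, Prime p → ¬ p ^ 3 ∣ D) ∧ m ∣ D - u ∧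
          |Algebra.norm ℤ D| ≤ X ∧ ¬ 3 ∣ (q D).num} : ℝ) /
        (Nat.card {D : 𝓞 (CyclotomicField 3 ℚ) // (∀ p, Prime p → ¬ p ^ 3 ∣ D) ∧ m ∣ D - u ∧
          |Algebra.norm ℤ D| ≤ X} : ℝ)) Filter.atTop
        (nhds (∏' i : ℕ, (1 + 1 / (3 : ℝ) ^ (i + 1))⁻¹)) := by
  refine ⟨qv hC hO, fun D hD' W hW => ?_, fun n s m u hs hm hu => ?_⟩
  · subst hW
    exact qv_spec hC hO hD'
  · have hm' : m ∣ Q9 n := hm.trans (pow3_dvd_Q9 n)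
    refine limG (hD n) hm' (not_s3_pow hs hu) (fun D => ¬ (3 : ℤ) ∣ (qv hC hO D).num) ?_ ?_
    · intro i S T hST hα hβ hG
      exact (qv_iff hC hO i hST hα hβ (not_one9 hG)).2 hG
    · intro i S T hST hR hα hβ hPr
      exact (qv_iff hC hO i hST hα hβ fun h => hR.ne_empty h.1).1 hPr

end

end Pool.Agent.Lib.MP_1a91b9_ntS3.G
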